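import Mathlib
import Pool.Agent.R859.QS.Comm

/-!
# Products of fine sets with inverse descent classes

For every multiset `B` of permutations in `S_n` whose quasisymmetric function is symmetric (in
particular for every fine set) and every `J`, the multisets `B D_{n,J}⁻¹` and `D_{n,J}⁻¹ B` have the
same quasisymmetric function.
-/

set_option autoImplicit false

namespace Pool.Agent.Results.MP_4faf9f_co.ProductsCommute

open Pool.Agent.R859.QS

theorem result (n : ℕ) (B : Multiset (Equiv.Perm (Fin n))) (hB : IsSymm (QF B)) (J : Finset ℕ) :
    QF (prodM B (invDes n J)) = QF (prodM (invDes n J) B) :=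
  QF_prod_comm B hB J

end Pool.Agent.Results.MP_4faf9f_co.ProductsCommute
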